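import Pool.Agent.R811.Cross.Bigon

set_option autoImplicit false

/-! Project SD, piece (TW): in a reduced shadow there are many disjoint pairs of interlaced double points, compared with the number of
classes of double points joined by antiparallel bigons (helper2; generalisation of `Pool.Agent.R811.Cross.matching`). -/

namespace Pool.Agent.J4H2.SD

open Finset
open Pool.Agent.R811.Cross

variable {n : ℕ} (G : Shadow n)

section S

variable (S : Finset (Fin n))

variable (hind : ∀ r r', r ∉ S → r' ∉ S → ¬ G.Interlaced r r') (hred : ∀ i, ∃ j, G.Interlaced i j)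

include hind hred in
theorem core {r r' : Fin n} (hr : r ∉ S) (hr' : r' ∉ S) (ha : pa G r' = pa G r + 1)
    (h1 : cnt G S (pa G r) = cnt G S (pa G r')) (h2 : cnt G S (pb G r) = cnt G S (pb G r')) : G.Antiparallel r r' := by
  have hne : r ≠ r' := by rintro rfl; omega
  have hd := pa_inj G hne
  have hb := nested G S hind hred hr hr' (by omega) h1
  have ab := pa_lt_pb G r
  have ab' := pa_lt_pb G r'
  have hlt := pb_lt G r
  rcases Nat.lt_or_ge (pb G r' + 1) (pb G r) with h | h
  · exfalso
    obtain ⟨c, hc⟩ := owner G (pb G r' + 1) (by omega)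
    have hcr : c ≠ r := by rintro rfl; omega
    have hcr' : c ≠ r' := by rintro rfl; omega
    have hcS : c ∉ S := by
      intro hcS
      have := cnt_lt G S (z := pb G r') (z' := pb G r) hcS (by omega)
      omega
    have d1 := pa_inj G hcr
    have d2 := pa_inj G hcr'
    have abc := pa_lt_pb G c
    have n1 := hind r c hr hcS
    rw [int_iff, not_not] at n1
    have n2 := hind r' c hr' hcS
    rw [int_iff, not_not] at n2
    rcases hc with hc | hc
    · have h3 := n1.1 ⟨by omega, by omega⟩
      have h4 := sep G S hind hred hcS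
      have h5 := cnt_mono G S (show pb G r' ≤ pa G c + 1 by omega)
      have h6 := cnt_mono G S (show pb G c ≤ pb G r by omega)
      omega
    · have h3 := n1.2 ⟨by omega, by omega⟩
      have h4 : ¬ (pa G r' < pa G c ∧ pa G c < pb G r') := fun h => by
        have := (n2.1 h).2
        omega
      omega
  · have hb' : pb G r = pb G r' + 1 := by omega
    have hN : ∀ (e f : Fin (2 * n)), (f : ℕ) = e + 1 → f = next e := by
      intro e f hef
      apply Fin.ext
      rcases next_val e with ⟨_, hn⟩ | ⟨he, _⟩
      · rw [hn, hef]
      · have := f.2; omega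
    rcases cases_pab G r with ⟨e1, e2⟩ | ⟨e1, e2⟩ <;> rcases cases_pab G r' with ⟨e3, e4⟩ | ⟨e3, e4⟩
    · exact ⟨G.p r, G.q r, G.p r', G.q r', Or.inl ⟨rfl, rfl⟩, Or.inl ⟨rfl, rfl⟩,
        hN _ _ (by omega), hN _ _ (by omega)⟩
    · exact ⟨G.p r, G.q r, G.q r', G.p r', Or.inl ⟨rfl, rfl⟩, Or.inr ⟨rfl, rfl⟩,
        hN _ _ (by omega), hN _ _ (by omega)⟩
    · exact ⟨G.q r, G.p r, G.p r', G.q r', Or.inr ⟨rfl, rfl⟩, Or.inl ⟨rfl, rfl⟩,
        hN _ _ (by omega), hN _ _ (by omega)⟩
    · exact ⟨G.q r, G.p r, G.q r', G.p r', Or.inr ⟨rfl, rfl⟩, Or.inr ⟨rfl, rfl⟩,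
        hN _ _ (by omega), hN _ _ (by omega)⟩

include hind hred in
theorem type_lt (m : ℕ) : ∀ r r' : Fin n, r ∉ S → r' ∉ S → pa G r < pa G r' → pa G r' - pa G r ≤ m →
    cnt G S (pa G r) = cnt G S (pa G r') → cnt G S (pb G r) = cnt G S (pb G r') →
    Relation.EqvGen G.Antiparallel r r' := by
  induction m with
  | zero => intro r r' _ _ h1 h2; omega
  | succ m ih =>
    intro r r' hr hr' hlt hm h1 h2
    rcases Nat.lt_or_ge (pa G r + 1) (pa G r') with h | h
    · have hne : r ≠ r' := by rintro rfl; omega
      have hd := pa_inj G hne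
      have hb := nested G S hind hred hr hr' hlt h1
      have ab := pa_lt_pb G r
      have ab' := pa_lt_pb G r'
      have hlt2 := pb_lt G r
      obtain ⟨c, hc⟩ := owner G (pa G r + 1) (by omega)
      have hcr : c ≠ r := by rintro rfl; omega
      have hcr' : c ≠ r' := by rintro rfl; omega
      have hcS : c ∉ S := by
        intro hcS
        have := cnt_lt G S (z := pa G r) (z' := pa G r') hcS (by omega)
        omega
      have d1 := pa_inj G hcr
      have d2 := pa_inj G hcr'
      have abc := pa_lt_pb G c
      have n1 := hind r c hr hcS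
      rw [int_iff, not_not] at n1
      have n2 := hind c r' hcS hr'
      rw [int_iff, not_not] at n2
      have n3 := hind c r hcS hr
      rw [int_iff, not_not] at n3
      rcases hc with hc | hc
      · have h3 := n1.1 ⟨by omega, by omega⟩
        rcases Nat.lt_or_ge (pb G c) (pa G r') with h4 | h4
        · have h5 := sep G S hind hred hcS
          have h6 := cnt_mono G S (show pa G r ≤ pa G c + 1 by omega)
          have h7 := cnt_mono G S (show pb G c ≤ pa G r' by omega)
          omega
        · have h5 := n2.1 ⟨by omega, by omega⟩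
          have h6 := cnt_mono G S (show pa G r ≤ pa G c by omega)
          have h7 := cnt_mono G S (show pa G c ≤ pa G r' by omega)
          have h8 := cnt_mono G S (show pb G r' ≤ pb G c by omega)
          have h9 := cnt_mono G S (show pb G c ≤ pb G r by omega)
          have h10 := core G S hind hred hr hcS (by omega) (by omega) (by omega)
          exact Relation.EqvGen.trans _ _ _ (Relation.EqvGen.rel _ _ h10)
            (ih c r' hcS hr' (by omega) (by omega) (by omega) (by omega))
      · have h3 := n3.1 ⟨by omega, by omega⟩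
        omega
    · exact Relation.EqvGen.rel _ _ (core G S hind hred hr hr' (by omega) h1 h2)

include hind hred in
theorem type_eqv {r r' : Fin n} (hr : r ∉ S) (hr' : r' ∉ S)
    (h1 : cnt G S (pa G r) = cnt G S (pa G r')) (h2 : cnt G S (pb G r) = cnt G S (pb G r')) :
    Relation.EqvGen G.Antiparallel r r' := by
  by_cases hne : r = r'
  · rw [hne]; exact Relation.EqvGen.refl _
  have hd := pa_inj G hne
  rcases Nat.lt_or_ge (pa G r) (pa G r') with h | h
  · exact type_lt G S hind hred _ r r' hr hr' h le_rfl h1 h2
  · exact Relation.EqvGen.symm _ _ (type_lt G S hind hred _ r' r hr' hr (by omega) le_rfl h1.symm h2.symm)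

include hind hred in
theorem bound (T : Finset (Fin n)) (hT : ∀ i ∈ T, ∀ j ∈ T, Relation.EqvGen G.Antiparallel i j → i = j) :
    T.card ≤ 5 * S.card := by
  classical
  set L : Fin n → Prop := fun r => ∀ r', r' ∉ S → cnt G S (pa G r') = cnt G S (pa G r) →
    cnt G S (pb G r') ≤ cnt G S (pb G r) with hL
  set f : Fin n → ℕ := fun r => if L r then cnt G S (pa G r) else 2 * S.card + (cnt G S (pb G r) - 1) with hf
  have lt1 : ∀ r, r ∉ S → cnt G S (pa G r) < cnt G S (pb G r) := by
    intro r hr
    have h1 := sep G S hind hred hr
    have h2 := cnt_mono G S (Nat.le_succ (pa G r))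
    have h3 : cnt G S (pa G r) ≤ cnt G S (pa G r + 1) := h2
    omega
  have key : (T \ S).card ≤ (Finset.range (4 * S.card)).card := by
    apply Finset.card_le_card_of_injOn f
    · intro r hr
      have hr' : r ∉ S := (Finset.mem_sdiff.1 hr).2
      have h1 := lt1 r hr'
      have h2 := cnt_le G S (pb G r)
      simp only [Finset.coe_range, Set.mem_Iio, hf]
      split_ifs <;> omega
    · intro r hr r' hr' he
      have hrS : r ∉ S := (Finset.mem_sdiff.1 hr).2
      have hrS' : r' ∉ S := (Finset.mem_sdiff.1 hr').2
      have hrT : r ∈ T := (Finset.mem_sdiff.1 hr).1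
      have hrT' : r' ∈ T := (Finset.mem_sdiff.1 hr').1
      have l1 := lt1 r hrS
      have l2 := lt1 r' hrS'
      have b1 := cnt_le G S (pb G r)
      have b2 := cnt_le G S (pb G r')
      simp only [hf] at he
      by_cases c1 : L r <;> by_cases c2 : L r'
      · rw [if_pos c1, if_pos c2] at he
        have h3 := c1 r' hrS' he.symm
        have h4 := c2 r hrS he
        exact hT r hrT r' hrT' (type_eqv G S hind hred hrS hrS' he (by omega))
      · rw [if_pos c1, if_neg c2] at he
        omega
      · rw [if_neg c1, if_pos c2] at he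
        omega
      · rw [if_neg c1, if_neg c2] at he
        have hb : cnt G S (pb G r) = cnt G S (pb G r') := by omega
        by_contra hne
        -- two chords with the same right type and different left types
        have aux : ∀ u v : Fin n, u ∉ S → v ∉ S → cnt G S (pb G u) = cnt G S (pb G v) → ¬ L v →
            cnt G S (pa G u) < cnt G S (pa G v) → False := by
          intro u v hu hv huv hLv hlt
          simp only [hL] at hLv
          push Not at hLv
          obtain ⟨w, hw, hw1, hw2⟩ := hLv
          have g1 : pa G u < pa G w := by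
            by_contra hcon
            have := cnt_mono G S (show pa G w ≤ pa G u by omega)
            omega
          have g2 : pa G w < pb G u := by
            by_contra hcon
            have := cnt_mono G S (show pb G u ≤ pa G w by omega)
            have := lt1 v hv
            omega
          have g3 : pb G u < pb G w := by
            by_contra hcon
            have := cnt_mono G S (show pb G w ≤ pb G u by omega)
            omega
          have n1 := hind u w hu hw
          rw [int_iff, not_not] at n1
          have := n1.1 ⟨g1, g2⟩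
          omega
        rcases Nat.lt_trichotomy (cnt G S (pa G r)) (cnt G S (pa G r')) with h | h | h
        · exact aux r r' hrS hrS' hb c2 h
        · exact hne (hT r hrT r' hrT' (type_eqv G S hind hred hrS hrS' h hb))
        · exact aux r' r hrS' hrS hb.symm c1 h
  rw [Finset.card_range] at key
  have h := Finset.card_le_card_sdiff_add_card (s := T) (t := S)
  omega

end S

theorem t_TW {n : ℕ} (G : Shadow n) (hred : ∀ i, ∃ j, G.Interlaced i j) (T : Finset (Fin n))
    (hT : ∀ i ∈ T, ∀ j ∈ T, Relation.EqvGen G.Antiparallel i j → i = j) :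
    ∃ (ν : ℕ) (u w : Fin ν → Fin n), Function.Injective (Sum.elim u w) ∧ (∀ k, G.Interlaced (u k) (w k)) ∧
      T.card ≤ 10 * ν := by
  classical
  obtain ⟨ν, u, w, h1, h2, _, h4⟩ := maxmatch G n Finset.univ (by simp)
  refine ⟨ν, u, w, h1, h2, ?_⟩
  have hS := bound G (Finset.univ.image (Sum.elim u w)) (by
    intro r r' hr hr'
    apply h4 r (Finset.mem_univ _) r' (Finset.mem_univ _)
    · intro k
      constructor
      · rintro rfl; exact hr (Finset.mem_image.2 ⟨Sum.inl k, Finset.mem_univ _, rfl⟩)
      · rintro rfl; exact hr (Finset.mem_image.2 ⟨Sum.inr k, Finset.mem_univ _, rfl⟩)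
    · intro k
      constructor
      · rintro rfl; exact hr' (Finset.mem_image.2 ⟨Sum.inl k, Finset.mem_univ _, rfl⟩)
      · rintro rfl; exact hr' (Finset.mem_image.2 ⟨Sum.inr k, Finset.mem_univ _, rfl⟩)) hred T hT
  rw [Finset.card_image_of_injective _ h1, Finset.card_univ, Fintype.card_sum, Fintype.card_fin] at hS
  omega

end Pool.Agent.J4H2.SD
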